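import Mathlib
import Pool.Agent.H.MP_94c9ac_al.Grp

set_option autoImplicit false
set_option maxHeartbeats 400000

namespace Pool.Agent.Results.MP_94c9ac_al.AllGroups

theorem result (G : Type) [Group G] [Finite G] (g : Fin (Nat.card G) → G) :
    ∃ K : Finset (Fin (Nat.card G)), K.Nonempty ∧
      (∃ L : List (Fin (Nat.card G)), L.Nodup ∧ L.toFinset = K ∧ (L.map g).prod = 1) ∧
      ∑ k ∈ K, (1 : ℚ) / orderOf (g k) ≤ 1 := by
  obtain ⟨L, h1, h2, h3, h4⟩ := Pool.Agent.H.MP_94c9ac_al.main g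
  exact ⟨L.toFinset, (List.toFinset_nonempty_iff L).2 h1, ⟨L, h2, rfl, h3⟩,
    by rwa [List.sum_toFinset _ h2]⟩

end Pool.Agent.Results.MP_94c9ac_al.AllGroups
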